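import Mathlib

set_option autoImplicit false

namespace Pool.Agent.Results.MP_0ab4d0_co.Disproof

/-- Property `P_i`: any two distinct vertices are joined by a path with `i` vertices. -/
def PathProp {V : Type} (G : SimpleGraph V) (i : ℕ) : Prop :=
  ∀ u v : V, u ≠ v → ∃ l : List V, l.length = i ∧ l.Nodup ∧ l.head? = some u ∧
    l.getLast? = some v ∧ l.IsChain G.Adj

/-- The closure of a set `S` of path properties for graphs of order `n`. -/
def closure (n : ℕ) (S : Set ℕ) : Set ℕ :=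
  {j | 2 ≤ j ∧ j ≤ n ∧ ∀ G : SimpleGraph (Fin n), (∀ i ∈ S, PathProp G i) → PathProp G j}

def N (u v : Fin 7) : Bool := Nat.testBit 222463810370702 (7 * u.val + v.val)

def G : SimpleGraph (Fin 7) where
  Adj u v := N u v = true
  symm := ⟨by decide⟩
  loopless := ⟨by decide⟩

instance : DecidableRel G.Adj := fun u v => by unfold G; infer_instance

lemma p4 : ∀ u v : Fin 7, u ≠ v → ∃ a, G.Adj u a ∧ ∃ b, G.Adj a b ∧ G.Adj b v ∧
    [u, a, b, v].Nodup := by decide +kernel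

lemma p6 : ∀ u v : Fin 7, u ≠ v → ∃ a, G.Adj u a ∧ ∃ b, G.Adj a b ∧ ∃ c, G.Adj b c ∧
    ∃ d, G.Adj c d ∧ G.Adj d v ∧ [u, a, b, c, d, v].Nodup := by decide +kernel

lemma p5 : ∀ a b c : Fin 7, ¬ (G.Adj 1 a ∧ G.Adj a b ∧ G.Adj b c ∧ G.Adj c 5 ∧
    [1, a, b, c, 5].Nodup) := by decide +kernel

lemma P4 : PathProp G 4 := by
  intro u v h
  obtain ⟨a, h1, b, h2, h3, h4⟩ := p4 u v h
  exact ⟨[u, a, b, v], rfl, h4, rfl, rfl, by simp [h1, h2, h3]⟩

lemma P6 : PathProp G 6 := by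
  intro u v h
  obtain ⟨a, h1, b, h2, c, h3, d, h4, h5, h6⟩ := p6 u v h
  exact ⟨[u, a, b, c, d, v], rfl, h6, rfl, rfl, by simp [h1, h2, h3, h4, h5]⟩

lemma P5 : ¬ PathProp G 5 := by
  intro h
  obtain ⟨l, h1, h2, h3, h4, h5⟩ := h 1 5 (by decide)
  match l, h1 with
  | [x, a, b, c, y], _ =>
    simp only [List.head?_cons, Option.some.injEq] at h3
    have h4' : y = 5 := by simpa using h4
    subst h3 h4'
    simp only [List.isChain_cons_cons, List.isChain_singleton, and_true] at h5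
    exact p5 a b c ⟨h5.1, h5.2.1, h5.2.2.1, h5.2.2.2, h2⟩

theorem result : ∃ (n : ℕ) (S : Set ℕ), 4 ≤ n ∧ S ⊆ Set.Icc 4 n ∧
    ∃ a b c : ℕ, a < b ∧ b < c ∧ a ∈ closure n S ∧ c ∈ closure n S ∧ b ∉ closure n S := by
  refine ⟨7, {4, 6}, by norm_num, ?_, 4, 5, 6, by norm_num, by norm_num, ?_, ?_, ?_⟩
  · rintro i (rfl | rfl) <;> simp
  · exact ⟨by norm_num, by norm_num, fun H h => h 4 (by simp)⟩
  · exact ⟨by norm_num, by norm_num, fun H h => h 6 (by simp)⟩
  · intro h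
    apply P5
    apply h.2.2 G
    rintro i (rfl | rfl)
    · exact P4
    · exact P6

end Pool.Agent.Results.MP_0ab4d0_co.Disproof
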